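import Mathlib

set_option autoImplicit false

namespace Pool.Agent.Results.MP_b73301_gt.Counter

open Set Topology Filter

@[reducible] def zar (S : Type) [Semigroup S] : TopologicalSpace S :=
  TopologicalSpace.generateFrom {U | ∃ a b c d : WithOne S,
    U = {x : S | a * x * b ≠ c} ∨ U = {x : S | a * x * b ≠ c * x * d}}

def Sle (S : Type) [Semigroup S] (n : ℕ) : Set S :=
  {f | ({f} : Set S).centralizer.centralizer.encard ≤ n}

inductive S : Type
  | o
  | z
  | tw
  | br (s : ℕ → Bool)
  | v (n : ℕ) (t : Finset ℕ) (k : ℕ)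

def R : S → S → Prop
  | .v n t 0, .br s => ∀ i < n, s i = true ↔ i ∈ t
  | .v n t 0, .tw => ∀ i < n, i ∉ t
  | .v n t k, .v n' t' k' => n = n' ∧ t = t' ∧ k + 1 = k'
  | _, _ => False

lemma R1 (x : S) : ¬ R .o x ∧ ¬ R .z x ∧ ¬ R x .o ∧ ¬ R x .z := by
  rcases x with _ | _ | _ | _ | ⟨_, _, _ | _⟩ <;> simp [R]

open Classical in
noncomputable instance : Semigroup S where
  mul x y := if R x y then .z else .o
  mul_assoc x y w := by
    change (if R (if R x y then .z else .o) w then S.z else .o) =
      if R x (if R y w then .z else .o) then .z else .o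
    split_ifs <;> simp_all [R1]

open Classical in
lemma mul_def (x y : S) : x * y = if R x y then S.z else S.o := rfl

lemma comm_iff {x y : S} : x * y = y * x ↔ (R x y ↔ R y x) := by
  rw [mul_def, mul_def]
  split_ifs <;> simp [*]

lemma sep {F : Set (ℕ → Bool)} (hF : F.Finite) {s : ℕ → Bool} (hs : s ∉ F) :
    ∃ (n : ℕ) (t : Finset ℕ), (∀ i < n, s i = true ↔ i ∈ t) ∧
      ∀ r ∈ F, ¬ ∀ i < n, r i = true ↔ i ∈ t := by
  choose! g hg using fun r (hr : r ∈ F) => Function.ne_iff.1 (ne_of_mem_of_not_mem hr hs)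
  obtain ⟨n, hn⟩ := (hF.image g).bddAbove
  refine ⟨n + 1, (Finset.range (n + 1)).filter fun i => s i = true, by simp +contextual,
    fun r hr h => hg r hr ?_⟩
  have h1 := Nat.lt_succ_of_le (hn ⟨r, hr, rfl⟩)
  simpa [h1] using h _ h1

lemma cc_br {F : Set S} (hF : F.Finite) {s : ℕ → Bool} (h1 : S.br s ∉ F)
    (h2 : S.tw ∈ F → s ≠ fun _ => false) :
    ∃ n t, S.v n t 0 ∈ F.centralizer ∧ ∀ i < n, s i = true ↔ i ∈ t := by
  obtain ⟨N, hN⟩ := (hF.image fun x => match x with | .v n _ _ => n | _ => 0).bddAbove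
  obtain ⟨n, t, h3, h4⟩ := sep (s := s) (F := S.br ⁻¹' F ∪ {r | S.tw ∈ F ∧ r = fun _ => false})
    ((hF.preimage fun _ _ _ _ h => S.br.inj h).union ((finite_singleton _).subset fun _ h => h.2))
    fun h => h.elim h1 fun h => h2 h.1 h.2
  refine ⟨n + N + 1, (Finset.range (n + N + 1)).filter fun i => s i = true, fun f hf => ?_,
    by simp +contextual⟩
  have h5 : ∀ r : ℕ → Bool, (∀ i < n + N + 1, r i = true ↔ i ∈ (Finset.range (n + N + 1)).filter
      fun i => s i = true) → ∀ i < n, r i = true ↔ i ∈ t := fun r hr i hi => by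
    have : i < n + N + 1 := by omega
    simpa [this, h3 i hi] using hr i this
  rw [comm_iff]
  rcases f with _ | _ | _ | r | ⟨m, u, k⟩
  · simp [R]
  · simp [R]
  · exact iff_of_false id fun h => h4 _ (Or.inr ⟨hf, rfl⟩) (h5 _ fun i hi => by simpa using h i hi)
  · exact iff_of_false id fun h => h4 r (Or.inl hf) (h5 r h)
  · have : m ≤ N := hN ⟨_, hf, rfl⟩
    cases k <;> simp [R]
    omega

lemma cc_v {F : Set S} {n t k} (h1 : S.v n t k ∈ F.centralizer.centralizer) :
    S.v n t k ∈ F ∨ S.v n t (k + 2) ∈ F := by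
  by_contra h
  rw [not_or] at h
  have := comm_iff.1 (h1 (S.v n t (k + 1)) fun f hf => comm_iff.2 (by
    rcases f with _ | _ | _ | r | ⟨m, u, _ | l⟩ <;> simp [R] <;> grind))
  cases k <;> simp [R] at this
  omega

lemma cc {F : Set S} (hF : F.Finite) {g : S} (hg : g ∈ F.centralizer.centralizer) :
    g ∈ F ∨ g = .o ∨ g = .z ∨ (g = .tw ∧ (.br fun _ => false) ∈ F) ∨
      ((g = .br fun _ => false) ∧ .tw ∈ F) ∨ ∃ n t k, g = .v n t k ∧ .v n t (k + 2) ∈ F := by
  rcases g with _ | _ | _ | r | ⟨m, u, k⟩
  · simp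
  · simp
  · by_contra h
    obtain ⟨n, t, h1, h2⟩ := cc_br hF (s := fun _ => false) (by grind) (by grind)
    exact (comm_iff.1 (hg _ h1)).1 fun i hi => by simpa using h2 i hi
  · by_contra h
    obtain ⟨n, t, h1, h2⟩ := cc_br hF (s := r) (by grind) (by grind)
    exact (comm_iff.1 (hg _ h1)).1 h2
  · have := cc_v hg
    grind

lemma lc (a b : WithOne S) (h : ¬ (a = 1 ∧ b = 1)) : IsLocallyConstant (fun s => a * S.br s * b) ∧
    ∀ s r, a * S.br s * b ≠ S.br r := by
  have h1 : ∀ x s : S, x * s = .o ∨ x * s = .z := fun x s => by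
    rw [mul_def]
    split_ifs <;> simp
  have h2 : ∀ s (x : S), S.br s * x = .o := fun s x => if_neg id
  have h3 : ∀ x : S, IsLocallyConstant fun s => x * S.br s := fun x => by
    refine (IsLocallyConstant.iff_eventually_eq _).2 fun s => ?_
    rcases x with _ | _ | _ | _ | ⟨n, t, _ | _⟩
    any_goals exact .of_forall fun _ => rfl
    have : ∀ᶠ r in 𝓝 s, ∀ i ∈ Finset.range n, r i = s i := (eventually_all_finset _).2 fun i _ =>
      (continuous_apply (A := fun _ => Bool) i).continuousAt.eventually_mem (s := {s i})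
        ((isOpen_discrete _).mem_nhds rfl)
    refine this.mono fun r hr => ?_
    have : R (.v n t 0) (.br r) ↔ R (.v n t 0) (.br s) := forall₂_congr fun i hi => by
      rw [hr i (Finset.mem_range.2 hi)]
    rw [mul_def, mul_def, this]
  induction a using WithOne.recOneCoe <;> induction b using WithOne.recOneCoe
  · simp at h
  · simp only [one_mul, ← WithOne.coe_mul, h2]
    exact ⟨IsLocallyConstant.const _, by simp⟩
  · rename_i a
    simp only [mul_one, ← WithOne.coe_mul]
    exact ⟨(h3 a).comp _, fun s r => by rcases h1 a (.br s) with h | h <;> simp [h]⟩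
  · rename_i a b
    simp only [← WithOne.coe_mul]
    exact ⟨(h3 a).comp fun x => ((x * b : S) : WithOne S), fun s r => by
      rcases h1 (a * .br s) b with h | h <;> simp [h]⟩

lemma cont : Continuous[_, zar S] S.br := by
  refine continuous_generateFrom_iff.2 ?_
  rintro _ ⟨a, b, c, d, rfl | rfl⟩
  · by_cases h : a = 1 ∧ b = 1
    · obtain ⟨rfl, rfl⟩ := h
      refine isClosed_compl_iff.1 (Set.Subsingleton.finite fun s hs r hr => ?_).isClosed
      simp only [preimage_ofPred_eq, mem_compl_iff, mem_ofPred_eq, one_mul, mul_one, not_not] at hs hr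
      simpa using hs.trans hr.symm
    · exact (lc a b h).1 {c}ᶜ
  · by_cases h : a = 1 ∧ b = 1 <;> by_cases h' : c = 1 ∧ d = 1
    · simp [h, h']
    · simp [h, fun s => ((lc c d h').2 s s).symm]
    · simp [h', fun s => (lc a b h).2 s s]
    · exact ((lc a b h).1.prodMk (lc c d h').1) {p | p.1 ≠ p.2}

theorem result : ∃ (S : Type) (_ : Semigroup S),
    (∀ F : Set S, F.Finite → F.centralizer.centralizer.Finite) ∧ ∃ n : ℕ,
      ¬ IsClosed[zar S] (Sle S n) ∧
      ¬ ∃ D : ℕ → Set S, (∀ k, @IsDiscrete S (zar S) (D k)) ∧ ⋃ k, D k = Sle S n := by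
  have h1 : ∀ s, S.br s ∈ Sle S 3 ↔ s ≠ fun _ => false := fun s => by
    constructor
    · rintro h rfl
      have h1 : ({.o, .z, .tw, .br fun _ => false} : Set S) ⊆
          ({.br fun _ => false} : Set S).centralizer.centralizer := by
        intro g hg x hx
        have := comm_iff.1 (hx _ rfl)
        rw [comm_iff]
        rcases hg with rfl | rfl | rfl | rfl
        · simp [R1]
        · simp [R1]
        · rcases x with _ | _ | _ | _ | ⟨_, _, _ | _⟩ <;> simp_all [R]
        · exact this.symm
      have h2 := (encard_le_encard h1).trans h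
      rw [encard_insert_of_notMem (by simp), encard_insert_of_notMem (by simp),
        encard_pair (by simp)] at h2
      exact absurd h2 (by decide)
    · intro h
      refine (encard_le_encard (t := {.o, .z, .br s}) fun g hg => ?_).trans ?_
      · have := cc (finite_singleton _) hg
        grind
      · exact (encard_insert_le _ _).trans (by rw [encard_pair (by simp)]; rfl)
  refine ⟨S, inferInstance, fun F hF => ?_, 3, fun h => ?_, fun ⟨D, h2, h3⟩ => ?_⟩
  · refine ((hF.union (hF.image fun x => match x with | .v n t k => .v n t (k - 2) | x => x)).union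
      (toFinite {.o, .z, .tw, .br fun _ => false})).subset fun g hg => ?_
    rcases cc hF hg with h | h | h | h | h | ⟨n, t, k, rfl, h⟩
    on_goal 6 => exact Or.inl (Or.inr ⟨_, h, rfl⟩)
    all_goals simp [h]
  · have h2 : IsClosed ({fun _ => false}ᶜ : Set (ℕ → Bool)) := by
      convert @IsClosed.preimage _ _ _ (zar S) _ cont _ h
      exact Set.ext fun s => (h1 s).symm
    obtain ⟨F, u, h3, h4⟩ := isOpen_pi_iff.1 (isClosed_compl_iff.1 h2) _ rfl
    obtain ⟨n, hn⟩ := F.exists_notMem
    have := congrFun (h4 (a := Function.update (fun _ => false) n true) fun i hi => by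
      rw [Function.update_of_ne (ne_of_mem_of_not_mem hi hn)]; exact (h3 i hi).2) n
    simp at this
  · have : Uncountable (ℕ → Bool) := Cardinal.aleph0_lt_mk_iff.1 (by simp [Cardinal.aleph0_lt_continuum])
    have h4 : ∀ k, (S.br ⁻¹' D k).Countable := fun k => by
      let _ := zar S
      have := ((h2 k).preimage cont.continuousOn fun _ _ h => S.br.inj h).to_subtype
      exact countable_coe_iff.1 (TopologicalSpace.separableSpace_iff_countable.1 inferInstance)
    refine not_countable_univ (((countable_iUnion h4).insert fun _ => false).mono fun s _ => ?_)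
    rw [← preimage_iUnion, h3]
    exact (em _).imp id (h1 s).2

end Pool.Agent.Results.MP_b73301_gt.Counter
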